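import Pool.Agent.Lib.H63G.T

/-!
# H63G, file P: choice principles for plane edge sets

`chain_choice`: for every antitone map `w` from the nonempty chains of nonempty plane sets to the vertex sets, the least
member of some chain is connected on its label (or the label is empty).
`blocking`: the case `w σ = V - ⋃ Z_G`.
`increasing`: the case of an increasing map from the plane sets to the vertex sets.
`choice_principle` (helper66): connected sets `S_G` which are not met by the borders of the later ones.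
-/

set_option autoImplicit false

set_option linter.unusedSectionVars false

namespace H63G

open Finset H98P H98Z H63F H30F H98M H56V H63T

variable {V : Type*} [Fintype V] [DecidableEq V]

/-- THE CHAIN CHOICE PRINCIPLE. -/
theorem chain_choice {cross : Sym2 V → Sym2 V → Prop} (hsymm : ∀ e f, cross e f → cross f e)
    (hHD : ∀ W, HD cross W) (hV : ∃ x y : V, x ≠ y)
    (w : Finset (Finset (Sym2 V)) → Finset V) (hw : ∀ σ τ, σ ⊆ τ → w τ ⊆ w σ) :
    ∃ c, KC cross c ∧ ∃ S ∈ c, (∀ G ∈ c, S ⊆ G) ∧ ¬ Disc (w c) S := by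
  classical
  by_contra hcon
  push Not at hcon
  refine trace_gen (α := (Finset (Finset (Sym2 V)))ᵒᵈ) hsymm hHD hV
    (fun σ => w (OrderDual.ofDual σ)) (fun σ τ h => hw _ _ h)
    (fun c T => Ch (fun σ : Finset (Finset (Sym2 V)) => σ ⊆ c ∧ σ.Nonempty) (T.image OrderDual.ofDual))
    ?_ ?_ ?_ ?_ ?_ ?_
  · intro c _ _ s t hst h
    exact ch_dn _ _ (image_subset_image hst) h
  · intro c _ _
    rw [image_empty]
    exact ch_empty _
  · intro c c' hcc _ _ T hT
    exact ch_mono (fun σ hσ => ⟨hσ.1.trans hcc, hσ.2⟩) hT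
  · intro c _ _ T hT
    refine ⟨fun _ _ => trivial, fun x hx y hy => ?_⟩
    rcases hT.2 _ (mem_image_of_mem _ hx) _ (mem_image_of_mem _ hy) with h | h
    · exact Or.inr h
    · exact Or.inl h
  · intro c hc S hS hmin T hT x hx
    have h1 := hT.1 _ (mem_image_of_mem _ hx)
    have hxc : KC cross (OrderDual.ofDual x) := ch_dn _ _ h1.1 hc
    obtain ⟨m, hm, hmm⟩ := ch_min hxc h1.2
    have h2 := hcon _ hxc m hm hmm
    obtain ⟨C, D, a1, a2, a3, a4, a5⟩ := h2
    exact ⟨C, D, a1, a2, a3, a4, fun p hp q hq hpq => a5 p hp q hq (hmin m (h1.1 hm) hpq)⟩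
  · intro c hc hcn
    have h1 : AC (Ch fun σ : Finset (Finset (Sym2 V)) => σ ⊆ c ∧ σ.Nonempty) :=
      ac_sd (K := fun s : Finset (Finset (Sym2 V)) => s ⊆ c) (fun s t hst h => hst.trans h) (empty_subset _)
        (ac_simplex hcn)
    have h2 : AC (E := (Finset (Finset (Sym2 V)))ᵒᵈ)
        (fun T => Ch (fun σ : Finset (Finset (Sym2 V)) => σ ⊆ c ∧ σ.Nonempty) (id T : Finset (Finset (Finset (Sym2 V))))) := h1
    refine hc_of_ac (ac_congr (fun T => ?_) h2) _
    have h3 : (T.image OrderDual.ofDual) = (id T : Finset (Finset (Finset (Sym2 V)))) := by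
      ext x
      rw [mem_image]
      constructor
      · rintro ⟨y, hy, rfl⟩
        exact hy
      · exact fun hx => ⟨x, hx, rfl⟩
    rw [h3]

/-- Blocking sets `Z G`. -/
theorem blocking {cross : Sym2 V → Sym2 V → Prop} (hsymm : ∀ e f, cross e f → cross f e)
    (hHD : ∀ W, HD cross W) (hV : ∃ x y : V, x ≠ y) (Z : Finset (Sym2 V) → Finset V) :
    ∃ c, KC cross c ∧ ∃ S ∈ c, (∀ G ∈ c, S ⊆ G) ∧ ¬ Disc (univ \ c.biUnion Z) S :=
  chain_choice hsymm hHD hV (fun c => univ \ c.biUnion Z) fun _ _ h =>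
    sdiff_subset_sdiff Subset.rfl (biUnion_subset_biUnion_of_subset_left _ h)

/-- An increasing map `L` from the plane sets to the vertex sets: `G` is connected on `L G` (or `L G` is empty) for some
plane set `G`. -/
theorem increasing {cross : Sym2 V → Sym2 V → Prop} (hsymm : ∀ e f, cross e f → cross f e)
    (hHD : ∀ W, HD cross W) (hV : ∃ x y : V, x ≠ y) (L : Finset (Sym2 V) → Finset V)
    (hL : ∀ G G', G ⊆ G' → G' ⊆ LW univ → Plane cross G' → G.Nonempty → L G ⊆ L G') :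
    ∃ G : Finset (Sym2 V), G ⊆ LW univ ∧ Plane cross G ∧ G.Nonempty ∧ ¬ Disc (L G) G := by
  obtain ⟨c, hc, S, hS, hmin, hd⟩ := blocking hsymm hHD hV fun G => univ \ L G
  have h1 := hc.1 S hS
  refine ⟨S, h1.1.1, h1.1.2, h1.2, fun h => hd ?_⟩
  have h2 : univ \ c.biUnion (fun G => univ \ L G) = L S := by
    ext v
    simp only [mem_sdiff, mem_univ, true_and, mem_biUnion, not_exists, not_and, not_not]
    constructor
    · exact fun h => h S hS
    · exact fun h G hG => hL S G (hmin G hG) (hc.1 G hG).1.1 (hc.1 G hG).1.2 h1.2 h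
  rw [h2]
  exact h

/-- The border of `A` in `G`. -/
def bdr (G : Finset (Sym2 V)) (A : Finset V) : Finset V :=
  univ.filter fun v => v ∉ A ∧ ∃ u ∈ A, s(u, v) ∈ G

theorem mem_bdr {G : Finset (Sym2 V)} {A : Finset V} {v : V} :
    v ∈ bdr G A ↔ v ∉ A ∧ ∃ u ∈ A, s(u, v) ∈ G := by
  simp [bdr]

/-- A set connected in `G ⊆ G'` which misses the border of `A'` is inside or outside. -/
theorem in_or_out {G G' : Finset (Sym2 V)} (hG : G ⊆ G') {A A' : Finset V} (hA : ¬ Disc A G)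
    (hm : Disjoint A (bdr G' A')) : A ⊆ A' ∨ Disjoint A A' := by
  by_contra hcon
  rw [not_or] at hcon
  obtain ⟨h1, h2⟩ := hcon
  rw [not_subset] at h1
  rw [not_disjoint_iff] at h2
  obtain ⟨a, ha, ha'⟩ := h1
  obtain ⟨b, hb, hb'⟩ := h2
  refine hA ⟨A ∩ A', A \ A', ⟨b, mem_inter.2 ⟨hb, hb'⟩⟩, ⟨a, mem_sdiff.2 ⟨ha, ha'⟩⟩, ?_, ?_, ?_⟩
  · rw [disjoint_left]
    intro x hx hx'
    exact (mem_sdiff.1 hx').2 (mem_inter.1 hx).2
  · rw [union_comm]; exact sdiff_union_inter _ _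
  · intro x hx y hy hxy
    rw [mem_inter] at hx
    rw [mem_sdiff] at hy
    exact disjoint_left.1 hm hy.1 (mem_bdr.2 ⟨hy.2, x, hx.2, hG hxy⟩)

/-- THE CHOICE PRINCIPLE (helper66). -/
theorem choice_principle {cross : Sym2 V → Sym2 V → Prop} (hsymm : ∀ e f, cross e f → cross f e)
    (hHD : ∀ W, HD cross W) (hV : ∃ x y : V, x ≠ y) (S : Finset (Sym2 V) → Finset V)
    (h0 : ∀ G, G ⊆ LW univ → Plane cross G → G.Nonempty → (S G).Nonempty ∧ ¬ Disc (S G) G ∧
      ∃ v, v ∉ S G ∧ v ∉ bdr G (S G))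
    (h2 : ∀ G G', G ⊂ G' → G' ⊆ LW univ → Plane cross G' → G.Nonempty → Disjoint (S G) (bdr G' (S G'))) :
    False := by
  classical
  obtain ⟨c, hc, m, hm, hmin, hd⟩ := blocking hsymm hHD hV fun G => bdr G (S G)
  have hne : ∀ G ∈ c, (S G).Nonempty := fun G hG => (h0 G (hc.1 G hG).1.1 (hc.1 G hG).1.2 (hc.1 G hG).2).1
  have hcon : ∀ G ∈ c, ¬ Disc (S G) G := fun G hG =>
    (h0 G (hc.1 G hG).1.1 (hc.1 G hG).1.2 (hc.1 G hG).2).2.1
  have hout : ∀ G ∈ c, ∃ v, v ∉ S G ∧ v ∉ bdr G (S G) := fun G hG =>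
    (h0 G (hc.1 G hG).1.1 (hc.1 G hG).1.2 (hc.1 G hG).2).2.2
  have hmiss : ∀ G ∈ c, ∀ G' ∈ c, G ⊂ G' → Disjoint (S G) (bdr G' (S G')) := fun G hG G' hG' h =>
    h2 G G' h (hc.1 G' hG').1.1 (hc.1 G' hG').1.2 (hc.1 G hG).2
  have hself : ∀ G : Finset (Sym2 V), Disjoint (S G) (bdr G (S G)) := fun G => by
    rw [disjoint_left]
    exact fun v hv h => (mem_bdr.1 h).1 hv
  have hcmp : ∀ G ∈ c, ∀ G' ∈ c, G ⊂ G' ∨ G = G' ∨ G' ⊂ G := by
    intro G hG G' hG'
    rcases hc.2 G hG G' hG' with h | h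
    · rcases eq_or_ssubset_of_subset h with h | h
      · exact Or.inr (Or.inl h)
      · exact Or.inl h
    · rcases eq_or_ssubset_of_subset h with h | h
      · exact Or.inr (Or.inl h.symm)
      · exact Or.inr (Or.inr h)
  have hdich : ∀ G ∈ c, ∀ G' ∈ c, G ⊂ G' → S G ⊆ S G' ∨ Disjoint (S G) (S G') := fun G hG G' hG' h =>
    in_or_out h.1 (hcon G hG) (hmiss G hG G' hG' h)
  -- the borders of earlier sets which lie outside miss `S G'`
  have hbd : ∀ G ∈ c, ∀ G' ∈ c, G ⊂ G' → Disjoint (S G) (S G') → Disjoint (S G') (bdr G (S G)) := by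
    intro G hG G' hG' h hdis
    rw [disjoint_left]
    intro v hv hb
    obtain ⟨-, u, hu, huv⟩ := mem_bdr.1 hb
    refine disjoint_left.1 (hmiss G hG G' hG' h) hu (mem_bdr.2 ⟨fun h3 => disjoint_left.1 hdis hu h3, v, hv, ?_⟩)
    rw [Sym2.eq_swap]
    exact h.1 huv
  -- every `S G` has an uncovered vertex
  have hA : ∀ k, ∀ G ∈ c, G.card = k → ∃ v ∈ S G, ∀ H ∈ c, v ∉ bdr H (S H) := by
    intro k
    induction k using Nat.strong_induction_on with
    | _ k ih =>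
      intro G hG hk
      by_cases hex : ∃ H ∈ c, H ⊂ G ∧ S H ⊆ S G
      · obtain ⟨H, hH, hHG, hs⟩ := hex
        obtain ⟨v, hv, hv'⟩ := ih H.card (by rw [← hk]; exact card_lt_card hHG) H hH rfl
        exact ⟨v, hs hv, hv'⟩
      · obtain ⟨v, hv⟩ := hne G hG
        refine ⟨v, hv, fun H hH hb => ?_⟩
        rcases hcmp H hH G hG with h | h | h
        · rcases hdich H hH G hG h with h3 | h3
          · exact hex ⟨H, hH, h, h3⟩
          · exact disjoint_left.1 (hbd H hH G hG h h3) hv hb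
        · subst h
          exact disjoint_left.1 (hself H) hv hb
        · exact disjoint_left.1 (hmiss G hG H hH h) hv hb
  obtain ⟨M, hM, hmax⟩ := ch_max hc ⟨m, hm⟩
  -- an uncovered vertex outside `S M`
  have hB : ∃ v, v ∉ S M ∧ ∀ H ∈ c, v ∉ bdr H (S H) := by
    by_cases hex : ∃ H ∈ c, H ⊂ M ∧ Disjoint (S H) (S M)
    · obtain ⟨H, hH, hHM, hs⟩ := hex
      obtain ⟨v, hv, hv'⟩ := hA _ H hH rfl
      exact ⟨v, disjoint_left.1 hs hv, hv'⟩
    · obtain ⟨v, hv, hvb⟩ := hout M hM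
      refine ⟨v, hv, fun H hH hb => ?_⟩
      rcases hcmp H hH M hM with h | h | h
      · rcases hdich H hH M hM h with h3 | h3
        · obtain ⟨-, u, hu, huv⟩ := mem_bdr.1 hb
          exact hvb (mem_bdr.2 ⟨hv, u, h3 hu, h.1 huv⟩)
        · exact hex ⟨H, hH, h, h3⟩
      · subst h
        exact hvb hb
      · exact h.2 (hmax H hH)
  -- an uncovered vertex outside `S m`
  have hC : ∃ v, v ∉ S m ∧ ∀ H ∈ c, v ∉ bdr H (S H) := by
    rcases hcmp m hm M hM with h | h | h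
    · rcases hdich m hm M hM h with h3 | h3
      · obtain ⟨v, hv, hv'⟩ := hB
        exact ⟨v, fun h4 => hv (h3 h4), hv'⟩
      · obtain ⟨v, hv, hv'⟩ := hA _ M hM rfl
        exact ⟨v, fun h4 => disjoint_left.1 h3 h4 hv, hv'⟩
    · subst h
      exact hB
    · exact absurd (hmin M hM) h.2
  obtain ⟨p, hp, hp'⟩ := hA _ m hm rfl
  obtain ⟨q, hq, hq'⟩ := hC
  have hW : ∀ {v}, v ∈ univ \ c.biUnion (fun G => bdr G (S G)) ↔ ∀ H ∈ c, v ∉ bdr H (S H) := by
    intro v
    simp only [mem_sdiff, mem_univ, true_and, mem_biUnion, not_exists, not_and]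
  refine hd ⟨(univ \ c.biUnion fun G => bdr G (S G)) ∩ S m, (univ \ c.biUnion fun G => bdr G (S G)) \ S m,
    ⟨p, mem_inter.2 ⟨hW.2 hp', hp⟩⟩, ⟨q, mem_sdiff.2 ⟨hW.2 hq', hq⟩⟩, ?_, by rw [union_comm]; exact sdiff_union_inter _ _, ?_⟩
  · rw [disjoint_left]
    intro x hx hx'
    exact (mem_sdiff.1 hx').2 (mem_inter.1 hx).2
  · intro x hx y hy hxy
    exact hW.1 (mem_sdiff.1 hy).1 m hm (mem_bdr.2 ⟨(mem_sdiff.1 hy).2, x, (mem_inter.1 hx).2, hxy⟩)

/-- THE CHOICE PRINCIPLE, existence form. -/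
theorem exists_good {cross : Sym2 V → Sym2 V → Prop} (hsymm : ∀ e f, cross e f → cross f e)
    (hHD : ∀ W, HD cross W) (hV : ∃ x y : V, x ≠ y) (Good : Finset (Sym2 V) → Prop)
    (S : Finset (Sym2 V) → Finset V)
    (h0 : ∀ G, G ⊆ LW univ → Plane cross G → G.Nonempty → ¬ Good G → (S G).Nonempty ∧ ¬ Disc (S G) G ∧
      ∃ v, v ∉ S G ∧ v ∉ bdr G (S G))
    (h2 : ∀ G G', G ⊂ G' → G' ⊆ LW univ → Plane cross G' → G.Nonempty → ¬ Good G → ¬ Good G' →
      Disjoint (S G) (bdr G' (S G'))) :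
    ∃ G : Finset (Sym2 V), G ⊆ LW univ ∧ Plane cross G ∧ G.Nonempty ∧ Good G := by
  by_contra hcon
  push Not at hcon
  exact choice_principle hsymm hHD hV S (fun G h1 h3 h4 => h0 G h1 h3 h4 (hcon G h1 h3 h4))
    fun G G' h1 h3 h4 h5 => h2 G G' h1 h3 h4 h5
      (hcon G (h1.1.trans h3) (plane_sub h1.1 h4) h5)
      (hcon G' h3 h4 (h5.mono h1.1))

end H63G
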