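import Pool.Agent.Lib.H63T.Fex

/-!
# H63G, file T: the general trace theorem for plane edge sets

For every nonempty chain `c` of nonempty plane sets let `L c` be a complex of chains of a finite poset `α` with a monotone
label `w` into the vertex sets, increasing in `c`, such that `min c` is disconnected on the labels. Then the cycles of
some `L c` on members of cardinality `|c| - 1` do not all bound.
-/

set_option autoImplicit false

set_option linter.unusedSectionVars false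

namespace H63G

open Finset H98P H98Z H63F H30F H98M H56V H63T

variable {V : Type*} [Fintype V] [DecidableEq V]

/-- Chains of nonempty plane edge sets. -/
def KC (cross : Sym2 V → Sym2 V → Prop) (c : Finset (Finset (Sym2 V))) : Prop :=
  Ch (fun G : Finset (Sym2 V) => (G ⊆ LW univ ∧ Plane cross G) ∧ G.Nonempty) c

/-- THE GENERAL TRACE THEOREM. -/
theorem trace_gen {cross : Sym2 V → Sym2 V → Prop} (hsymm : ∀ e f, cross e f → cross f e)
    (hHD : ∀ W, HD cross W) (hV : ∃ x y : V, x ≠ y)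
    {α : Type*} [Fintype α] [DecidableEq α] [PartialOrder α] (w : α → Finset V) (hw : Monotone w)
    (L : Finset (Finset (Sym2 V)) → Finset α → Prop)
    (hLd : ∀ c, KC cross c → c.Nonempty → Dn (L c))
    (hL0 : ∀ c, KC cross c → c.Nonempty → L c ∅)
    (hLm : ∀ c c', c ⊆ c' → KC cross c' → c.Nonempty → ∀ T, L c T → L c' T)
    (hLc : ∀ c, KC cross c → c.Nonempty → ∀ T, L c T → Ch (fun _ : α => True) T)
    (hLD : ∀ c, KC cross c → ∀ S ∈ c, (∀ G ∈ c, S ⊆ G) → ∀ T, L c T → ∀ x ∈ T, Disc (w x) S)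
    (hLH : ∀ c, KC cross c → c.Nonempty → HC (L c) (c.card - 1)) : False := by
  classical
  obtain ⟨x, y, hxy⟩ := hV
  have hK : Acy cross (LW (univ : Finset V)) := by
    refine acy_hasCut hsymm (hHD univ) (W := univ) ⟨Subset.rfl, {x}, univ \ {x}, singleton_nonempty x,
      ⟨y, by simp [Ne.symm hxy]⟩, disjoint_sdiff, by simp, ?_⟩
    intro a ha b hb
    refine mem_LW (mem_univ _) (mem_univ _) fun e => ?_
    subst e
    exact (mem_sdiff.1 hb).2 ha
  obtain ⟨K, hKdef⟩ : ∃ K : Finset (Sym2 V) → Prop, ∀ G, K G ↔ (G ⊆ LW univ ∧ Plane cross G) :=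
    ⟨_, fun _ => Iff.rfl⟩
  have hKd : Dn K := fun s t hst h => by
    rw [hKdef] at h ⊢
    exact ⟨hst.trans h.1, plane_sub hst h.2⟩
  have hK0 : K ∅ := (hKdef ∅).2 ⟨empty_subset _, fun e he => absurd he (notMem_empty e)⟩
  have hAK : AC K := ac_congr (fun s => (hKdef s).symm) hK
  have hKC : ∀ c, Ch (fun G : Finset (Sym2 V) => K G ∧ G.Nonempty) c → KC cross c := fun c hc =>
    ch_mono (fun G hG => ⟨(hKdef G).1 hG.1, hG.2⟩) hc
  have hgd : ∀ {W : Finset V} {S : Finset (Sym2 V)}, Disc W S → HasCut W (LW W \ S) ∧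
      Disjoint (LW W \ S) S := fun h => ⟨hasCut_compl h, sdiff_disjoint⟩
  have hLW : ∀ {W W' : Finset V}, W ≤ W' → ∀ {S : Finset (Sym2 V)}, LW W \ S ⊆ LW W' \ S := by
    intro W W' h S
    refine sdiff_subset_sdiff (fun e he => ?_) Subset.rfl
    unfold LW at he ⊢
    rw [mem_filter] at he ⊢
    exact ⟨Finset.sym2_mono h he.1, he.2⟩
  obtain ⟨c, T, hcn, hcK, hTn, ⟨-, -, S, hSc, hST⟩, hXi⟩ := trace_pair (E := Finset (Sym2 V))
    (C := α × Finset (Sym2 V))
    (Ch fun G : Finset (Sym2 V) => K G ∧ G.Nonempty)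
    (Ch fun p : α × Finset (Sym2 V) => HasCut (w p.1) p.2)
    ch_dn ch_dn (ch_empty _) (ac_sd hKd hK0 hAK)
    (fun c T => Ch (fun p : α × Finset (Sym2 V) => HasCut (w p.1) p.2) T ∧ L c (T.image Prod.fst) ∧
      ∃ S ∈ c, ∀ p ∈ T, Disjoint p.2 S)
    (fun T => Ch fun F : Finset (Sym2 V) => (∃ p ∈ T, F ⊆ p.2 ∧ Plane cross F) ∧ F.Nonempty)
    (fun c T _ _ h => h.1)
    (fun c c' hcc hc' hcn T ⟨h1, h2, S, hS, h3⟩ => ⟨h1, hLm c c' hcc (hKC c' hc') hcn _ h2, S, hcc hS, h3⟩)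
    (fun c hc ⟨S, hS⟩ => ⟨ch_empty _, by
      rw [image_empty]
      exact hL0 c (hKC c hc) ⟨S, hS⟩, S, hS, fun p hp => absurd hp (notMem_empty p)⟩)
    (fun c hc hn => by
      have hkc := hKC c hc
      obtain ⟨m, hm, hmin⟩ := ch_min hc hn
      have hminm : ∀ G ∈ c, m ⊆ G := fun G hG => hmin G hG
      obtain ⟨P, hP⟩ : ∃ P : α × Finset (Sym2 V) → Prop, ∀ p, P p ↔ (HasCut (w p.1) p.2 ∧ Disjoint p.2 m) :=
        ⟨_, fun _ => Iff.rfl⟩
      obtain ⟨g, hg⟩ : ∃ g : α → α × Finset (Sym2 V), ∀ x, g x = (x, LW (w x) \ m) := ⟨_, fun _ => rfl⟩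
      have hg1 : ∀ x, (g x).1 = x := fun x => by rw [hg]
      have hgm : ∀ x y, x ≤ y → g x ≤ g y := fun x y h => by
        rw [hg, hg]
        exact ⟨h, hLW (hw h)⟩
      have hPg : ∀ t, L c t → ∀ x ∈ t, P (g x) := by
        intro t ht x hx
        rw [hP, hg]
        exact hgd (hLD c hkc m hm hminm t ht x hx)
      have hChg : ∀ t, L c t → Ch P (t.image g) := by
        intro t ht
        refine ⟨fun p hp => ?_, fun p hp q hq => ?_⟩
        · obtain ⟨x, hx, rfl⟩ := mem_image.1 hp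
          exact hPg t ht x hx
        · obtain ⟨x, hx, rfl⟩ := mem_image.1 hp
          obtain ⟨y, hy, rfl⟩ := mem_image.1 hq
          rcases (hLc c hkc hn t ht).2 x hx y hy with h | h
          · exact Or.inl (hgm x y h)
          · exact Or.inr (hgm y x h)
      have hOP : ∀ s, (Ch (fun p : α × Finset (Sym2 V) => HasCut (w p.1) p.2) s ∧ L c (s.image Prod.fst) ∧
          ∃ S ∈ c, ∀ p ∈ s, Disjoint p.2 S) → Ch P s := by
        rintro s ⟨h1, h2, S, hS, h3⟩
        exact ⟨fun p hp => (hP p).2 ⟨h1.1 p hp, (h3 p hp).mono_right (hminm S hS)⟩, h1.2⟩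
      have hPO : ∀ s, Ch P s → L c (s.image Prod.fst) →
          (Ch (fun p : α × Finset (Sym2 V) => HasCut (w p.1) p.2) s ∧ L c (s.image Prod.fst) ∧
          ∃ S ∈ c, ∀ p ∈ s, Disjoint p.2 S) := fun s h1 h2 =>
        ⟨ch_mono (fun p hp => ((hP p).1 hp).1) h1, h2, m, hm, fun p hp => ((hP p).1 (h1.1 p hp)).2⟩
      have himg : ∀ t : Finset α, ∀ r : Finset (α × Finset (Sym2 V)), r ⊆ t.image g → r.image Prod.fst ⊆ t := by
        intro t r hr x hx
        obtain ⟨p, hp, rfl⟩ := mem_image.1 hx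
        obtain ⟨y, hy, rfl⟩ := mem_image.1 (hr hp)
        rwa [hg1]
      refine hc_transfer
        (fun T => Ch (fun p : α × Finset (Sym2 V) => HasCut (w p.1) p.2) T ∧ L c (T.image Prod.fst) ∧
          ∃ S ∈ c, ∀ p ∈ T, Disjoint p.2 S) (L c) ?_ (hLd c hkc hn) ?_ (hL0 c hkc hn)
        (fun s T => T ⊆ s.image Prod.fst) (fun t U => U ⊆ t.image g)
        (fun s U => Ch P U ∧ U.image Prod.fst ⊆ s.image Prod.fst)
        ?_ ?_ ?_ ?_ ?_ ?_ ?_ ?_ ?_ ?_ ?_ ?_ ?_ (hLH c hkc hn)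
      · rintro s t hst ⟨h1, h2, S, hS, h3⟩
        exact ⟨ch_dn _ _ hst h1, hLd c hkc hn _ _ (image_subset_image hst) h2, S, hS, fun p hp => h3 p (hst hp)⟩
      · refine ⟨ch_empty _, ?_, m, hm, fun p hp => absurd hp (notMem_empty p)⟩
        rw [image_empty]
        exact hL0 c hkc hn
      · exact fun s t hst _ _ r hr => hr.trans (image_subset_image hst)
      · exact fun s _ _ => empty_subset _
      · exact fun s _ hsn => ac_simplex (hsn.image _)
      · exact fun s hs _ r hr => hLd c hkc hn _ _ hr hs.2.1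
      · exact fun s t hst _ _ r hr => hr.trans (image_subset_image hst)
      · exact fun s _ _ => empty_subset _
      · exact fun s _ hsn => ac_simplex (hsn.image _)
      · exact fun t ht _ r hr => hPO r (ch_dn _ _ hr (hChg t ht)) (hLd c hkc hn _ _ (himg t r hr) ht)
      · exact fun s t hst _ _ r hr => ⟨hr.1, hr.2.trans (image_subset_image hst)⟩
      · exact fun s hs _ => ⟨hOP s hs, Subset.rfl⟩
      · intro s hs hsn
        have hchain := hLc c hkc hn _ hs.2.1
        refine ac_congr (K := Ch fun p => P p ∧ p.1 ∈ s.image Prod.fst) (fun U => ?_) ?_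
        · constructor
          · intro h1
            refine ⟨ch_mono (fun p hp => hp.1) h1, fun x hx => ?_⟩
            obtain ⟨p, hp, rfl⟩ := mem_image.1 hx
            exact (h1.1 p hp).2
          · rintro ⟨h1, h2⟩
            exact ⟨fun p hp => ⟨h1.1 p hp, h2 (mem_image_of_mem _ hp)⟩, h1.2⟩
        · refine ac_closure (fun p : α × Finset (Sym2 V) => p.1) g (Q := fun x => x ∈ s.image Prod.fst)
            ?_ ?_ ?_ ?_ ?_ ?_
          · exact fun p hp => hp.2
          · exact fun x hx => ⟨hPg _ hs.2.1 x hx, by rwa [hg1]⟩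
          · exact fun p p' _ _ h => h.1
          · exact fun x x' _ _ h => hgm x x' h
          · intro p hp
            have h1 := (hP p).1 hp.1
            rw [hg]
            exact ⟨le_refl _, fun e he => mem_sdiff.2 ⟨h1.1.1 he, disjoint_left.1 h1.2 he⟩⟩
          · refine ac_congr (K := fun T => T ⊆ s.image Prod.fst) (fun T => ?_) (ac_simplex (hsn.image _))
            exact ⟨fun h => ⟨fun x hx => h hx, fun x hx y hy => hchain.2 x (h hx) y (h hy)⟩, fun h x hx => h.1 x hx⟩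
      · exact fun s hs _ r hr => hPO r hr.1 (hLd c hkc hn _ _ hr.2 hs.2.1)
      · intro s t r hs hsn h1 _ h3
        have ht : L c t := hLd c hkc hn _ _ h1 hs.2.1
        exact ⟨ch_dn _ _ h3 (hChg t ht), (himg t r h3).trans h1⟩)
    (fun T c hT _ hc => ch_mono (fun F hF => by
      obtain ⟨⟨p, hp, h1, h2⟩, h3⟩ := hF
      refine ⟨(hKdef F).2 ⟨h1.trans ((hT.1 p hp).1.trans fun e he => ?_), h2⟩, h3⟩
      unfold LW at he ⊢
      rw [mem_filter] at he ⊢
      exact ⟨Finset.sym2_mono (subset_univ _) he.1, he.2⟩) hc)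
    (fun T T' hTT _ _ c hc => ch_mono (fun F hF => by
      obtain ⟨⟨p, hp, h1⟩, h3⟩ := hF
      exact ⟨⟨p, hTT hp, h1⟩, h3⟩) hc)
    (fun T _ _ => ch_empty _)
    (fun T hT hn => by
      obtain ⟨m, hm, h⟩ := ch_max hT hn
      refine ac_sd (K := fun F => ∃ p ∈ T, F ⊆ p.2 ∧ Plane cross F) ?_ ?_ ?_
      · exact fun s t hst ⟨p, hp, h1, h2⟩ => ⟨p, hp, hst.trans h1, plane_sub hst h2⟩
      · exact ⟨m, hm, empty_subset _, fun e he => absurd he (notMem_empty e)⟩
      · refine ac_congr (K := fun s => s ⊆ m.2 ∧ Plane cross s) (fun s => ?_)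
          (acy_hasCut hsymm (hHD (w m.1)) (hT.1 m hm))
        exact ⟨fun h1 => ⟨m, hm, h1⟩, fun ⟨p, hp, h1, h2⟩ => ⟨h1.trans (h p hp).2, h2⟩⟩)
  obtain ⟨⟨p, hp, h1, -⟩, ⟨e, he⟩⟩ := hXi.1 S hSc
  exact disjoint_left.1 (hST p hp) (h1 he) he

end H63G
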